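import Mathlib

set_option autoImplicit false

namespace Pool.Agent.Results.MP_f01bcf_lc.NoKrasnerPair

variable {α : Type}

/-- `X` is a code: whenever `c_1 ⋯ c_h = c'_1 ⋯ c'_k` with all factors in `X`, the two
sequences of factors coincide. -/
def IsCode (X : Set (List α)) : Prop :=
  ∀ c c' : List (List α), (∀ x ∈ c, x ∈ X) → (∀ x ∈ c', x ∈ X) →
    c.flatten = c'.flatten → c = c'

/-- `X` is a maximal code: a code such that the only code containing `X` is `X` itself. -/
def IsMaximalCode (X : Set (List α)) : Prop :=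
  IsCode X ∧ ∀ Y : Set (List α), IsCode Y → X ⊆ Y → Y = X

/-- The submonoid `X*` generated by `X`. -/
def Star (X : Set (List α)) : Set (List α) :=
  {w | ∃ c : List (List α), (∀ x ∈ c, x ∈ X) ∧ c.flatten = w}

/-- `|X|`, the maximal length of a word of the finite set `X`. -/
def maxLen (X : Finset (List α)) : ℕ := X.sup List.length

/-- `y` is strongly right completable: for every `u` there is `v` with `y u v ∈ X*`. -/
def StronglyRightCompletable (X : Set (List α)) (y : List α) : Prop :=
  ∀ u : List α, ∃ v : List α, y ++ u ++ v ∈ Star X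

/-- The set `(X*)⁻¹ X* = {u | z u ∈ X* for some z ∈ X*}`. -/
def InvStar (X : Set (List α)) : Set (List α) :=
  {u | ∃ z ∈ Star X, z ++ u ∈ Star X}

/-- `a^P` is a left set of `X` (with `a` of order `n`): for some strongly right completable `y`,
`P = {i ∈ {0,…,n-1} : y a^(2n|X|+i) ∈ X*}`. -/
def IsLeftSet (X : Finset (List α)) (a : α) (n : ℕ) (P : Set ℕ) : Prop :=
  ∃ y : List α, StronglyRightCompletable (X : Set (List α)) y ∧
    P = {i | i < n ∧ y ++ List.replicate (2 * n * maxLen X + i) a ∈ Star (X : Set (List α))}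

/-- `a^Q` is a right set of `X` (with `a` of order `n`): for some word `x`,
`Q = {k ∈ {0,…,n-1} : a^(k+2n|X|) x A* meets X*}`, and `a^(j-i) ∉ (X*)⁻¹ X*` for all
`i < j` in `Q`. -/
def IsRightSet (X : Finset (List α)) (a : α) (n : ℕ) (Q : Set ℕ) : Prop :=
  ∃ x : List α,
    Q = {k | k < n ∧ ∃ v : List α,
      List.replicate (k + 2 * n * maxLen X) a ++ x ++ v ∈ Star (X : Set (List α))} ∧
    ∀ i ∈ Q, ∀ j ∈ Q, i < j → List.replicate (j - i) a ∉ InvStar (X : Set (List α))

/-- `(I, J)` is a Krasner factorization of order `n`: every `z ∈ {0,…,n-1}` is `i + j` for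
exactly one pair `(i, j) ∈ I × J`. -/
def IsKrasner (n : ℕ) (I J : Set ℕ) : Prop :=
  ∀ z < n, ∃! p : ℕ × ℕ, p.1 ∈ I ∧ p.2 ∈ J ∧ p.1 + p.2 = z

/-! ### General lemmas -/

theorem nil_mem_star (X : Set (List α)) : [] ∈ Star X := ⟨[], by simp, by simp⟩

theorem mem_star_of_mem {X : Set (List α)} {x : List α} (h : x ∈ X) : x ∈ Star X :=
  ⟨[x], by simpa using h, by simp⟩

theorem append_mem_star {X : Set (List α)} {u v : List α} (hu : u ∈ Star X) (hv : v ∈ Star X) :
    u ++ v ∈ Star X := by
  obtain ⟨c, hc, rfl⟩ := hu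
  obtain ⟨d, hd, rfl⟩ := hv
  refine ⟨c ++ d, ?_, by simp⟩
  intro x hx
  rcases List.mem_append.1 hx with h | h
  · exact hc x h
  · exact hd x h

/-- A fuel-based test for membership in the star of a finite list of words. -/
def inStarB [DecidableEq α] (X : List (List α)) : ℕ → List α → Bool
  | 0, w => w.isEmpty
  | n + 1, w => w.isEmpty ||
      X.any (fun x => !x.isEmpty && (x.isPrefixOf w && inStarB X n (w.drop x.length)))

theorem inStarB_sound [DecidableEq α] (X : List (List α)) :
    ∀ (n : ℕ) (w : List α), inStarB X n w = true → w ∈ Star {x | x ∈ X} := by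
  intro n
  induction n with
  | zero =>
    intro w h
    simp only [inStarB, List.isEmpty_iff] at h
    subst h
    exact nil_mem_star _
  | succ n ih =>
    intro w h
    simp only [inStarB, Bool.or_eq_true, List.isEmpty_iff, List.any_eq_true, Bool.and_eq_true]
      at h
    rcases h with h | ⟨x, hx, -, hp, hs⟩
    · subst h
      exact nil_mem_star _
    · rw [List.isPrefixOf_iff_prefix] at hp
      obtain ⟨t, rfl⟩ := hp
      rw [List.drop_left] at hs
      exact append_mem_star (mem_star_of_mem (by simpa using hx)) (ih t hs)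

/-- Soundness of the Sardinas-Patterson test. -/
theorem isCode_of_residuals (X D : List (List α)) (hX : ∀ x ∈ X, x ≠ []) (hD : ∀ d ∈ D, d ≠ [])
    (h1 : ∀ x ∈ X, ∀ e, e ≠ [] → x ++ e ∈ X → e ∈ D)
    (h2 : ∀ d ∈ D, ∀ e, d ++ e ∈ X → e ∈ D)
    (h3 : ∀ x ∈ X, ∀ e, x ++ e ∈ D → e ∈ D) : IsCode {x | x ∈ X} := by
  have core : ∀ n : ℕ, ∀ d ∈ D, ∀ c c' : List (List α), (∀ x ∈ c, x ∈ X) → (∀ x ∈ c', x ∈ X) →
      (d ++ c.flatten).length ≤ n → d ++ c.flatten = c'.flatten → False := by
    intro n
    induction n with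
    | zero =>
      intro d hd c c' _ _ hl _
      have : d.length = 0 := by
        have := hl
        simp only [List.length_append] at this
        omega
      exact hD d hd (List.length_eq_zero_iff.1 this)
    | succ n ih =>
      intro d hd c c' hc hc' hl he
      have hdpos : 0 < d.length := List.length_pos_iff.2 (hD d hd)
      cases c' with
      | nil =>
        simp only [List.flatten_nil, List.append_eq_nil_iff] at he
        exact hD d hd he.1
      | cons y ys =>
        have hy : y ∈ X := hc' y (by simp)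
        have hys : ∀ x ∈ ys, x ∈ X := fun x hx => hc' x (by simp [hx])
        have hypos : 0 < y.length := List.length_pos_iff.2 (hX y hy)
        simp only [List.flatten_cons] at he
        rcases List.append_eq_append_iff.1 he with ⟨e, he1, he2⟩ | ⟨e, he1, he2⟩
        · -- y = d ++ e
          have heD : e ∈ D := h2 d hd e (he1 ▸ hy)
          refine ih e heD ys c hys hc ?_ he2.symm
          rw [he2] at hl
          simp only [List.length_append] at hl ⊢
          omega
        · -- d = y ++ e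
          have heD : e ∈ D := h3 y hy e (he1 ▸ hd)
          refine ih e heD c ys hc hys ?_ he2.symm
          rw [he1] at hl
          simp only [List.length_append] at hl ⊢
          omega
  intro c
  induction c with
  | nil =>
    intro c' _ hc' he
    cases c' with
    | nil => rfl
    | cons y ys =>
      simp only [List.flatten_nil, List.flatten_cons] at he
      have := (List.append_eq_nil_iff.1 he.symm).1
      exact absurd this (hX y (hc' y (by simp)))
  | cons x xs ih =>
    intro c' hc hc' he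
    have hx : x ∈ X := hc x (by simp)
    have hxs : ∀ z ∈ xs, z ∈ X := fun z hz => hc z (by simp [hz])
    cases c' with
    | nil =>
      simp only [List.flatten_nil, List.flatten_cons] at he
      have := (List.append_eq_nil_iff.1 he).1
      exact absurd this (hX x hx)
    | cons y ys =>
      have hy : y ∈ X := hc' y (by simp)
      have hys : ∀ z ∈ ys, z ∈ X := fun z hz => hc' z (by simp [hz])
      simp only [List.flatten_cons] at he
      rcases List.append_eq_append_iff.1 he with ⟨e, he1, he2⟩ | ⟨e, he1, he2⟩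
      · by_cases h : e = []
        · subst h
          simp only [List.append_nil] at he1
          subst he1
          simp only [List.nil_append] at he2
          rw [ih ys hxs hys he2]
        · exact (core _ e (h1 x hx e h (he1 ▸ hy)) ys xs hys hxs le_rfl he2.symm).elim
      · by_cases h : e = []
        · subst h
          simp only [List.append_nil] at he1
          subst he1
          simp only [List.nil_append] at he2
          rw [ih ys hxs hys he2.symm]
        · exact (core _ e (h1 y hy e h (he1 ▸ hx)) xs ys hxs hys le_rfl he2.symm).elim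

/-- If `p w q ∈ X*` for all `w`, with `p, q ∈ X*`, then the code `X` is maximal. -/
theorem isMaximalCode_of_sync (X : Set (List α)) (hX : IsCode X) (p q : List α)
    (hp : p ∈ Star X) (hq : q ∈ Star X) (h : ∀ w, p ++ w ++ q ∈ Star X) : IsMaximalCode X := by
  refine ⟨hX, fun Y hY hXY => Set.Subset.antisymm ?_ hXY⟩
  intro w hw
  obtain ⟨c, hc, hcp⟩ := hp
  obtain ⟨d, hd, hdq⟩ := hq
  obtain ⟨e, he, hew⟩ := h w
  have := hY (c ++ [w] ++ d) e ?_ (fun x hx => hXY (he x hx)) ?_
  · have hmem : w ∈ e := by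
      rw [← this]
      simp
    exact he w hmem
  · intro x hx
    simp only [List.mem_append, List.mem_singleton] at hx
    rcases hx with (hx | rfl) | hx
    · exact hXY (hc x hx)
    · exact hw
    · exact hXY (hd x hx)
  · simp [hcp, hdq, hew]

/-- Reading words along a finite family of sets of pending factors. -/
theorem pending (X : Set (List α)) (G : List (List (List α))) (p : List α)
    (h0 : ∃ S ∈ G, ∀ s ∈ S, ∃ z ∈ Star X, z ++ s = p)
    (hstep : ∀ S ∈ G, ∀ c : α, ∃ S' ∈ G, ∀ s' ∈ S', ∃ s ∈ S,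
      s' = s ++ [c] ∨ (s' = [] ∧ s ++ [c] ∈ X)) :
    ∀ w : List α, ∃ S ∈ G, ∀ s ∈ S, ∃ z ∈ Star X, z ++ s = p ++ w := by
  intro w
  induction w using List.reverseRecOn with
  | nil => simpa using h0
  | append_singleton w c ih =>
    obtain ⟨S, hS, h⟩ := ih
    obtain ⟨S', hS', h'⟩ := hstep S hS c
    refine ⟨S', hS', ?_⟩
    intro s' hs'
    obtain ⟨s, hs, hss⟩ := h' s' hs'
    obtain ⟨z, hz, hzs⟩ := h s hs
    rcases hss with rfl | ⟨rfl, hX⟩
    · exact ⟨z, hz, by rw [← List.append_assoc, hzs]; simp⟩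
    · refine ⟨z ++ (s ++ [c]), append_mem_star hz (mem_star_of_mem hX), ?_⟩
      rw [List.append_nil, ← List.append_assoc, hzs]
      simp

/-! ### Cesari's code, over the alphabet `{a, b}` with `a = 0`, `b = 1` -/

/-- The list of the 33 words of Cesari's code. -/
def L : List (List (Fin 2)) :=
  [[1,1,0], [1,1,1], [0,0,0,1], [0,1,0,1], [1,0,0,0], [1,0,0,1], [1,0,1,0], [1,1,0,0,0],
   [1,1,0,0,1], [1,1,0,1,0], [1,1,1,0,0], [1,1,1,0,1], [1,1,1,1,0], [0,0,0,0,0,0],
   [0,0,0,0,1,0], [0,0,0,1,0,0], [0,0,0,1,1,0], [0,1,0,0,0,0], [0,1,0,0,1,0], [0,1,0,1,0,0],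
   [0,1,0,1,1,0], [1,0,0,0,0,0], [1,0,0,0,1,0], [1,0,0,1,0,0], [1,0,0,1,1,0],
   [1,1,0,0,0,0,0], [1,1,0,0,0,1,0], [1,1,0,0,1,0,0], [1,1,0,0,1,1,0], [1,1,1,0,0,0,0],
   [1,1,1,0,0,1,0], [1,1,1,0,1,0,0], [1,1,1,0,1,1,0]]

/-- The residuals of `L` in the Sardinas-Patterson test. -/
def D : List (List (Fin 2)) :=
  [[0,0], [0,1], [1,0], [0,0,0,0], [0,0,1,0], [0,1,0,0], [0,1,1,0]]

/-- Sets of pending factors after reading `bbb w`. -/
def G : List (List (List (Fin 2))) :=
  [[[], [1,1,1]],
  [[0], [1,1,1,0]],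
  [[1], [1,1,1,1]],
  [[], [0,0], [1,1,1,0,0]],
  [[], [0,1], [1,1,1,0,1]],
  [[], [1,0]],
  [[1,1]],
  [[0], [0,0,0], [1,1,1,0,0,0]],
  [[1], [1,1,1,0,0,1]],
  [[0], [0,1,0], [1,1,1,0,1,0]],
  [[1], [1,1,1,0,1,1]],
  [[0], [1,0,0]],
  [[1], [1,0,1]],
  [[], [1,1,0]],
  [[], [0,0], [0,0,0,0]],
  [[], [0,1], [0,0,0,1]],
  [[], [0,0], [0,1,0,0]],
  [[], [0,1], [0,1,0,1]],
  [[], [0,0], [1,0,0,0]],
  [[], [0,1], [1,0,0,1]],
  [[0], [1,1,0,0]],
  [[1], [1,1,0,1]],
  [[0], [0,0,0], [0,0,0,0,0]],
  [[1], [0,0,0,0,1]],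
  [[0], [0,1,0], [0,0,0,1,0]],
  [[1], [0,0,0,1,1]],
  [[0], [0,0,0], [0,1,0,0,0]],
  [[1], [0,1,0,0,1]],
  [[0], [0,1,0], [0,1,0,1,0]],
  [[1], [0,1,0,1,1]],
  [[0], [0,0,0], [1,0,0,0,0]],
  [[1], [1,0,0,0,1]],
  [[0], [0,1,0], [1,0,0,1,0]],
  [[1], [1,0,0,1,1]],
  [[], [0,0], [1,1,0,0,0]],
  [[], [0,1], [1,1,0,0,1]],
  [[0], [0,0,0], [1,1,0,0,0,0]],
  [[1], [1,1,0,0,0,1]],
  [[0], [0,1,0], [1,1,0,0,1,0]],
  [[1], [1,1,0,0,1,1]]]

/-- The words of the suffix code `Z = A²a ∪ {b}`. -/
def Z : List (List (Fin 2)) := [[0,0,0], [0,1,0], [1,0,0], [1,1,0], [1]]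

/-- The words of `Z*` pending between two returns to `X*`. -/
def U : List (List (Fin 2)) :=
  [[], [0,0,0], [0,1,0], [1,0,0], [1,1,0,0], [1,1,1,0], [1], [1,1]]

/-- Cesari's code as a finite set. -/
def X : Finset (List (Fin 2)) := L.toFinset

theorem coe_X : (X : Set (List (Fin 2))) = {x | x ∈ L} := by
  ext x
  simp [X]

theorem isCode_X : IsCode {x | x ∈ L} := by
  have e1 : ∀ x ∈ L, ∀ y ∈ L, x.isPrefixOf y = true → y = x ∨ y.drop x.length ∈ D := by
    decide +kernel
  have e2 : ∀ d ∈ D, ∀ y ∈ L, d.isPrefixOf y = true → y.drop d.length ∈ D := by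
    decide +kernel
  have e3 : ∀ x ∈ L, ∀ d ∈ D, x.isPrefixOf d = true → d.drop x.length ∈ D := by
    decide +kernel
  refine isCode_of_residuals L D (by decide +kernel) (by decide +kernel) ?_ ?_ ?_
  · intro x hx e he h
    rcases e1 x hx _ h (by simp [List.isPrefixOf_iff_prefix]) with h' | h'
    · exact absurd (by simpa using h') he
    · simpa using h'
  · intro d hd e h
    simpa using e2 d hd _ h (by simp [List.isPrefixOf_iff_prefix])
  · intro x hx e h
    simpa using e3 x hx _ h (by simp [List.isPrefixOf_iff_prefix])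

theorem sync_X (w : List (Fin 2)) : [1,1,1] ++ w ++ [0,0,0,1,1,0] ∈ Star {x | x ∈ L} := by
  have h0 : ∀ s ∈ ([[], [1,1,1]] : List (List (Fin 2))),
      ∃ z ∈ Star {x | x ∈ L}, z ++ s = [1,1,1] := by
    intro s hs
    simp only [List.mem_cons, List.not_mem_nil, or_false] at hs
    rcases hs with rfl | rfl
    · exact ⟨[1,1,1], mem_star_of_mem (by decide +kernel), by simp⟩
    · exact ⟨[], nil_mem_star _, by simp⟩
  have hstep : ∀ S ∈ G, ∀ c : Fin 2, ∃ S' ∈ G, ∀ s' ∈ S', ∃ s ∈ S,
      s' = s ++ [c] ∨ (s' = [] ∧ s ++ [c] ∈ L) := by decide +kernel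
  obtain ⟨S, hS, h⟩ := pending {x | x ∈ L} G [1,1,1] ⟨_, by simp [G], h0⟩ hstep w
  have hfin : ∀ S ∈ G, ∃ s ∈ S, inStarB L 8 (s ++ [0,0,0,1,1,0]) = true := by decide +kernel
  obtain ⟨s, hs, hB⟩ := hfin S hS
  obtain ⟨z, hz, hzs⟩ := h s hs
  rw [← hzs, List.append_assoc]
  exact append_mem_star hz (inStarB_sound L _ _ hB)

theorem isMaximalCode_X : IsMaximalCode {x | x ∈ L} :=
  isMaximalCode_of_sync _ isCode_X [1,1,1] [0,0,0,1,1,0]
    (mem_star_of_mem (by decide +kernel)) (mem_star_of_mem (by decide +kernel)) sync_X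

theorem maxLen_X : maxLen X = 7 := by decide +kernel

/-- Every word of `Z*` (after a pending word) can be completed to a word of `X*`. -/
theorem complete_Z : ∀ (c : List (List (Fin 2))), (∀ z ∈ c, z ∈ Z) → ∀ u ∈ U,
    ∃ v, u ++ c.flatten ++ v ∈ Star {x | x ∈ L} := by
  intro c
  induction c with
  | nil =>
    intro _ u hu
    have : ∀ u ∈ U, ∃ v ∈ ([[], [1], [1,1]] : List (List (Fin 2))),
        inStarB L 8 (u ++ v) = true := by decide +kernel
    obtain ⟨v, -, hv⟩ := this u hu
    exact ⟨v, by simpa using inStarB_sound L _ _ hv⟩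
  | cons z c ih =>
    intro hc u hu
    have key : ∀ u ∈ U, ∀ z ∈ Z, u ++ z ∈ L ∨ u ++ z ∈ U := by decide +kernel
    rcases key u hu z (hc z (by simp)) with h | h
    · obtain ⟨v, hv⟩ := ih (fun z hz => hc z (by simp [hz])) [] (by decide +kernel)
      refine ⟨v, ?_⟩
      have := append_mem_star (mem_star_of_mem (X := {x | x ∈ L}) h) hv
      simpa [List.append_assoc] using this
    · obtain ⟨v, hv⟩ := ih (fun z hz => hc z (by simp [hz])) (u ++ z) h
      exact ⟨v, by simpa [List.append_assoc] using hv⟩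

theorem star_X_subset_star_Z (w : List (Fin 2)) (hw : w ∈ Star {x | x ∈ L}) :
    w ∈ Star {x | x ∈ Z} := by
  obtain ⟨c, hc, rfl⟩ := hw
  induction c with
  | nil => simpa using nil_mem_star _
  | cons x c ih =>
    rw [List.flatten_cons]
    refine append_mem_star ?_ (ih fun x hx => hc x (by simp [hx]))
    have : ∀ x ∈ L, inStarB Z 8 x = true := by decide +kernel
    exact inStarB_sound Z _ _ (this x (hc x (by simp)))

theorem shift_three (w : List (Fin 2)) (hw : w ∈ Star {x | x ∈ L}) :
    ∃ v, [0,0,0] ++ w ++ v ∈ Star {x | x ∈ L} := by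
  obtain ⟨c, hc, rfl⟩ := star_X_subset_star_Z w hw
  obtain ⟨v, hv⟩ := complete_Z ([0,0,0] :: c) (by
    intro z hz
    rcases List.mem_cons.1 hz with rfl | hz
    · decide
    · exact hc z hz) [] (by decide)
  exact ⟨v, by simpa [List.append_assoc] using hv⟩

theorem cancel_six (t : List (Fin 2))
    (h : List.replicate 7 0 ++ t ∈ Star {x | x ∈ L}) :
    [0] ++ t ∈ Star {x | x ∈ L} := by
  obtain ⟨c, hc, he⟩ := h
  cases c with
  | nil => simp [List.replicate_succ] at he
  | cons x c =>
    have hx : x ∈ L := hc x (by simp)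
    have hlen : ∀ x ∈ L, x.length ≤ 7 := by decide +kernel
    have hkey : ∀ x ∈ L, x.isPrefixOf (List.replicate 7 0) = true →
        x = List.replicate 6 0 := by decide +kernel
    have hpre : x <+: List.replicate 7 0 := by
      refine List.prefix_of_prefix_length_le (l₃ := List.replicate 7 0 ++ t) ?_ ?_ ?_
      · exact ⟨c.flatten, by simpa using he⟩
      · exact List.prefix_append _ _
      · simpa using hlen x hx
    have hx6 := hkey x hx (by simpa [List.isPrefixOf_iff_prefix] using hpre)
    subst hx6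
    have : c.flatten = [0] ++ t := by
      have h2 : List.replicate 6 (0 : Fin 2) ++ c.flatten
          = List.replicate 6 0 ++ ([0] ++ t) := by
        rw [List.flatten_cons] at he
        rw [he]
        simp [List.replicate_succ]
      exact List.append_cancel_left h2
    exact ⟨c, fun x hx => hc x (by simp [hx]), this⟩

/-- The deterministic automaton of the prefix code `Y = {aa, ab, ba, bba, bbb}`: the states
`0, 1, 2, 3` stand for the proper prefixes `1, a, b, bb`. -/
def stepY (s : Fin 4) (c : Fin 2) : Fin 4 :=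
  if s = 0 then (if c = 0 then 1 else 2)
  else if s = 1 then 0
  else if s = 2 then (if c = 0 then 0 else 3)
  else 0

theorem star_X_run (w : List (Fin 2)) (hw : w ∈ Star {x | x ∈ L}) : w.foldl stepY 0 = 0 := by
  obtain ⟨c, hc, rfl⟩ := hw
  induction c with
  | nil => rfl
  | cons x c ih =>
    have : ∀ x ∈ L, x.foldl stepY 0 = 0 := by decide +kernel
    rw [List.flatten_cons, List.foldl_append, this x (hc x (by simp))]
    exact ih fun x hx => hc x (by simp [hx])

theorem parity (y : List (Fin 2)) (i j : ℕ) (hi : i < 6) (hj : j < 6)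
    (h1 : y ++ List.replicate (84 + i) 0 ∈ Star {x | x ∈ L})
    (h2 : y ++ List.replicate (84 + j) 0 ∈ Star {x | x ∈ L}) : i % 2 = j % 2 := by
  have e1 := star_X_run _ h1
  have e2 := star_X_run _ h2
  rw [List.foldl_append] at e1 e2
  generalize y.foldl stepY 0 = s at e1 e2
  have key : ∀ s : Fin 4, ∀ i < 6, ∀ j < 6,
      (List.replicate (84 + i) (0 : Fin 2)).foldl stepY s = 0 →
      (List.replicate (84 + j) (0 : Fin 2)).foldl stepY s = 0 → i % 2 = j % 2 := by
    decide +kernel
  exact key s i hi j hj e1 e2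

theorem mem_invStar_two : List.replicate 2 (0 : Fin 2) ∈ InvStar {x | x ∈ L} :=
  ⟨[1,1,1], mem_star_of_mem (by decide +kernel), mem_star_of_mem (by decide +kernel)⟩

theorem mem_invStar_four : List.replicate 4 (0 : Fin 2) ∈ InvStar {x | x ∈ L} :=
  ⟨[1,1,1], mem_star_of_mem (by decide +kernel), mem_star_of_mem (by decide +kernel)⟩

/-- Cesari's code has no Krasner factorization coming from a left set and a right set. -/
theorem no_pair : ¬ ∃ I J : Set ℕ, IsKrasner 6 I J ∧ IsLeftSet X 0 6 I ∧ IsRightSet X 0 6 J := by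
  rintro ⟨I, J, hK, ⟨y, -, hI⟩, x, hJ, hd⟩
  rw [maxLen_X, coe_X] at hI hJ
  rw [coe_X] at hd
  norm_num at hI hJ
  -- right sets are invariant under the shift by three
  have up : ∀ k, k < 3 → k ∈ J → k + 3 ∈ J := by
    intro k hk hkJ
    rw [hJ] at hkJ ⊢
    obtain ⟨-, v, hv⟩ := hkJ
    obtain ⟨v', hv'⟩ := shift_three _ hv
    refine ⟨by omega, v ++ v', ?_⟩
    have e : List.replicate (k + 3 + 84) (0 : Fin 2)
        = [0,0,0] ++ List.replicate (k + 84) 0 := by
      rw [show k + 3 + 84 = 3 + (k + 84) by omega, List.replicate_add]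
      rfl
    rw [e]
    simpa [List.append_assoc] using hv'
  have down : ∀ k, k < 3 → k + 3 ∈ J → k ∈ J := by
    intro k hk hkJ
    rw [hJ] at hkJ ⊢
    obtain ⟨-, v, hv⟩ := hkJ
    obtain ⟨v', hv'⟩ := shift_three _ hv
    refine ⟨by omega, v ++ v', ?_⟩
    have e : [0,0,0] ++ (List.replicate (k + 3 + 84) (0 : Fin 2) ++ (x ++ v)) ++ v'
        = List.replicate 7 0 ++ (List.replicate (k + 83) 0 ++ (x ++ (v ++ v'))) := by
      rw [show k + 3 + 84 = 4 + (k + 83) by omega, List.replicate_add]
      simp [List.replicate_succ]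
    rw [e] at hv'
    have h8 := cancel_six _ hv'
    have e2 : [0] ++ (List.replicate (k + 83) (0 : Fin 2) ++ (x ++ (v ++ v')))
        = List.replicate (k + 84) 0 ++ (x ++ (v ++ v')) := by
      have e3 : List.replicate (k + 84) (0 : Fin 2) = [0] ++ List.replicate (k + 83) 0 := rfl
      rw [e3, List.append_assoc]
    rw [e2] at h8
    exact h8
  have ltJ : ∀ k ∈ J, k < 6 := by
    intro k hk
    rw [hJ] at hk
    exact hk.1
  have nodiff : ∀ i ∈ J, ∀ j ∈ J, j ≠ i + 2 ∧ j ≠ i + 4 := by
    intro i hi j hj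
    refine ⟨?_, ?_⟩
    · rintro rfl
      exact hd i hi _ hj (by omega) (by simpa using mem_invStar_two)
    · rintro rfl
      exact hd i hi _ hj (by omega) (by simpa using mem_invStar_four)
  -- `0` lies in both sets
  obtain ⟨⟨i0, j0⟩, ⟨hi0, hj0, hs0⟩, -⟩ := hK 0 (by norm_num)
  simp only at hi0 hj0 hs0
  have hi00 : i0 = 0 := by omega
  have hj00 : j0 = 0 := by omega
  subst hi00 hj00
  have h3 : (3 : ℕ) ∈ J := up 0 (by norm_num) hj0
  -- `1` is not a sum
  obtain ⟨⟨i1, j1⟩, ⟨hi1, hj1, hs1⟩, -⟩ := hK 1 (by norm_num)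
  simp only at hi1 hj1 hs1
  rcases Nat.lt_or_ge 0 i1 with h | h
  · have hi11 : i1 = 1 := by omega
    subst hi11
    rw [hI] at hi0 hi1
    have := parity y 0 1 (by norm_num) (by norm_num) hi0.2 hi1.2
    norm_num at this
  · have hj11 : j1 = 1 := by omega
    subst hj11
    exact (nodiff 1 hj1 3 h3).1 rfl

/-! ### Sanity checks: Cesari's code has left sets and right sets -/

/-- The word `bbb` is strongly right completable, so left sets exist. -/
theorem exists_leftSet : ∃ P, IsLeftSet X 0 6 P := by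
  refine ⟨_, [1,1,1], ?_, rfl⟩
  intro u
  refine ⟨[0,0,0,1,1,0], ?_⟩
  rw [coe_X]
  exact sync_X u

theorem three_dvd_of_star_Z (v : List (Fin 2)) : ∀ (m : ℕ) (c : List (List (Fin 2))),
    (∀ z ∈ c, z ∈ Z) → c.flatten = List.replicate m 0 ++ ([1,1] ++ v) → m % 3 = 0 := by
  intro m
  induction m using Nat.strong_induction_on with
  | _ m ih =>
    intro c hc he
    rcases Nat.lt_or_ge m 3 with hm | hm
    · interval_cases m
      · rfl
      all_goals
        cases c with
        | nil => simp at he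
        | cons z c =>
          have hz := hc z (by simp)
          simp only [Z, List.mem_cons, List.not_mem_nil, or_false] at hz
          rcases hz with rfl | rfl | rfl | rfl | rfl <;> simp [List.replicate_succ] at he
    · obtain ⟨m, rfl⟩ := Nat.exists_eq_add_of_le hm
      cases c with
      | nil => simp [List.replicate_add] at he
      | cons z c =>
        have hz := hc z (by simp)
        have h3 : z = [0,0,0] := by
          simp only [Z, List.mem_cons, List.not_mem_nil, or_false] at hz
          rcases hz with rfl | rfl | rfl | rfl | rfl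
          · rfl
          all_goals simp [List.replicate_add, List.replicate_succ] at he
        subst h3
        have := ih m (by omega) c (fun x hx => hc x (by simp [hx])) (by
          simpa [List.replicate_add, List.replicate_succ] using he)
        omega

/-- The word `bb` gives a (nonempty) right set. -/
theorem exists_rightSet : ∃ Q, IsRightSet X 0 6 Q ∧ Q.Nonempty := by
  refine ⟨_, ⟨[1,1], rfl, ?_⟩, ?_⟩
  · rw [maxLen_X, coe_X]
    rintro i ⟨hi6, v, hv⟩ j ⟨hj6, v', hv'⟩ hij ⟨z, hz, hza⟩
    obtain ⟨c, hc, he⟩ := star_X_subset_star_Z _ hv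
    obtain ⟨c', hc', he'⟩ := star_X_subset_star_Z _ hv'
    have h1 := three_dvd_of_star_Z v _ c hc (by rw [he, List.append_assoc])
    have h2 := three_dvd_of_star_Z v' _ c' hc' (by rw [he', List.append_assoc])
    have e1 := star_X_run _ hz
    have e2 := star_X_run _ hza
    rw [List.foldl_append, e1] at e2
    have key : ∀ m < 6, (List.replicate m (0 : Fin 2)).foldl stepY 0 = 0 → m % 2 = 0 := by
      decide +kernel
    have h3 := key (j - i) (by omega) e2
    omega
  · refine ⟨0, by norm_num, [0], ?_⟩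
    rw [maxLen_X, coe_X]
    have : inStarB L 20 (List.replicate (0 + 2 * 6 * 7) 0 ++ [1,1] ++ [0]) = true := by
      decide +kernel
    exact inStarB_sound L _ _ this

/-- **Main theorem.** It is not true that for every finite maximal code `X` over a finite
alphabet and every letter `a` of order `n` there is a Krasner factorization `(I, J)` of order `n`
such that `a^I` is a left set of `X` and `a^J` is a right set of `X`. -/
theorem result :
    ¬ ∀ (A : Type) [Fintype A] (X : Finset (List A)), IsMaximalCode (X : Set (List A)) →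
        ∀ (a : A) (n : ℕ), 1 ≤ n → List.replicate n a ∈ X →
          ∃ I J : Set ℕ, IsKrasner n I J ∧ IsLeftSet X a n I ∧ IsRightSet X a n J := by
  intro h
  refine no_pair (h (Fin 2) X ?_ 0 6 (by norm_num) (by decide +kernel))
  rw [coe_X]
  exact isMaximalCode_X

end Pool.Agent.Results.MP_f01bcf_lc.NoKrasnerPair
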